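import Pool.Agent.H365Z.MLS.Chain

/-!
MP_bada7b_pr, Q1: the inverse modified log-Sobolev constant is not bounded by a constant multiple
of the entropy hitting-time parameter, nor of the entropy mixing time.

The chain is the three state path with `π = (ε, 2ε, 1 - 3ε)`, `P(0,1) = 1`,
`P(1,0) = P(1,2) = 1/2`. With `L = log (1/ε)` both times are `O(log L)`, while the test function
`f = (L, L - log L, 0)` gives `c_MLS = O(log L / L)`.
-/

set_option autoImplicit false

namespace Pool.Agent.Results.MP_bada7b_pr.ACounterexample

open Pool.Agent.H365Z.MLS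

/-- For every value `C_ent > 0` of the constant in `ρ_ent` and every `C` there is a finite
irreducible reversible chain with `1 / c_MLS > C ρ_ent` and `1 / c_MLS > C τ_ent` (the sets of times
whose infima define `ρ_ent` and `τ_ent` are nonempty and `c_MLS > 0`, so no junk value occurs). -/
theorem result (Cent : ℝ) (hCent : 0 < Cent) (C : ℝ) :
    ∃ (n : ℕ) (P : Matrix (Fin n) (Fin n) ℝ) (π : Fin n → ℝ), IsIrredReversible P π ∧
      (∀ x, (rhoSet Cent P π x).Nonempty) ∧ (∀ x, (tauSet P π x).Nonempty) ∧ 0 < cMLS P π ∧
      C * rhoEnt Cent P π < 1 / cMLS P π ∧ C * tauEnt P π < 1 / cMLS P π :=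
  ⟨3, main Cent hCent C⟩

end Pool.Agent.Results.MP_bada7b_pr.ACounterexample
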